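import Pool.Agent.H484.AL.Stm

/-!
# `S_FE`: exponential moment of the truncated digit sum
-/

set_option autoImplicit false

open Finset

namespace Pool.Agent.H357.AL

open Pool.Agent.H484.AL

/-- the multiplicative weight -/
noncomputable def phi (c0 H : ℕ) (c : ℕ) : ℝ :=
  if c0 ≤ c ∧ c ≤ H then Real.exp (-(c : ℝ) / (H : ℝ)) else 1

theorem phi_prod (c0 H : ℕ) (w : List ℕ) :
    (w.map (phi c0 H)).prod = Real.exp (-(FF c0 H w : ℝ) / (H : ℝ)) := by
  induction w with
  | nil => simp [FF]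
  | cons c w ih =>
    have h1 : (FF c0 H (c :: w) : ℝ) = (if c0 ≤ c ∧ c ≤ H then (c : ℝ) else 0) + (FF c0 H w : ℝ) := by
      unfold FF
      rw [List.map_cons, List.sum_cons]
      push_cast
      rfl
    rw [List.map_cons, List.prod_cons, ih, h1]
    unfold phi
    split_ifs with h
    · rw [← Real.exp_add]
      congr 1
      ring
    · rw [one_mul, zero_add]

theorem phi_nn (c0 H c : ℕ) : 0 ≤ phi c0 H c := by
  unfold phi
  split_ifs
  · exact (Real.exp_pos _).le
  · exact zero_le_one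

theorem phi_le (c0 H c : ℕ) : phi c0 H c ≤ 1 := by
  unfold phi
  split_ifs
  · rw [Real.exp_le_one_iff]
    apply div_nonpos_of_nonpos_of_nonneg
    · simp
    · positivity
  · exact le_rfl

/-- the harmonic sum -/
theorem harm (c0 : ℕ) (h0 : 1 ≤ c0) (H : ℕ) (h : c0 ≤ H) :
    Real.log ((H : ℝ) + 1) - Real.log c0 ≤ ∑ c ∈ Icc c0 H, 1 / (c : ℝ) := by
  have hc : (0 : ℝ) < c0 := by exact_mod_cast h0
  have key : ∀ x : ℝ, 0 < x → Real.log (x + 1) - Real.log x ≤ 1 / x := by
    intro x hx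
    rw [← Real.log_div (by positivity) hx.ne']
    have h1 := Real.log_le_sub_one_of_pos (x := (x + 1) / x) (by positivity)
    have h2 : (x + 1) / x - 1 = 1 / x := by
      field_simp
      ring
    linarith
  induction H, h using Nat.le_induction with
  | base =>
    rw [Icc_self, sum_singleton]
    exact key _ hc
  | succ H hH ih =>
    rw [← Finset.insert_Icc_right_eq_Icc_add_one (by omega), sum_insert (by simp)]
    have h1 := key ((H : ℝ) + 1) (by positivity)
    push_cast
    linarith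

/-- the telescoping sum -/
theorem tele (s : ℝ) (hs : 0 ≤ s) (D : ℕ) :
    ∑ c ∈ Icc 1 D, (1 + s) / (((c : ℝ) + s) * ((c : ℝ) + 1 + s)) =
      1 - (1 + s) / ((D : ℝ) + 1 + s) := by
  induction D with
  | zero =>
    have : (1 + s) ≠ 0 := by positivity
    simp [this]
  | succ D ih =>
    rw [Finset.sum_Icc_succ_top (by omega), ih]
    push_cast
    have h1 : (D : ℝ) + 1 + s ≠ 0 := by positivity
    have h2 : (D : ℝ) + 1 + 1 + s ≠ 0 := by positivity
    field_simp
    ring

theorem one_sub_exp {x : ℝ} (h0 : 0 ≤ x) (h1 : x ≤ 1) : x / 2 ≤ 1 - Real.exp (-x) := by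
  have h2 : Real.exp (-x) ≤ 1 / (1 + x) := by
    rw [Real.exp_neg, ← one_div]
    apply one_div_le_one_div_of_le (by positivity)
    have := Real.add_one_le_exp x
    linarith
  have h3 : 1 / (1 + x) ≤ 1 - x / 2 := by
    rw [div_le_iff₀ (by positivity)]
    nlinarith
  linarith

theorem t_FE' (hTREE : S_TREE) : S_FE := by
  intro c0 H D n h0 hH hD
  have hc1 : (1 : ℝ) ≤ c0 := by exact_mod_cast h0
  have hH1 : 1 ≤ H := by nlinarith
  have hcH : c0 ≤ H := by nlinarith
  have hHr : (1 : ℝ) ≤ H := by exact_mod_cast hH1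
  have hHp : (0 : ℝ) < H := by linarith
  have hlogn : 0 ≤ Real.log (H : ℝ) := Real.log_nonneg hHr
  have hlog : Real.log (H : ℝ) ≤ H := by
    have := Real.log_le_sub_one_of_pos hHp
    linarith
  have hρ : 0 ≤ 1 - Real.log (H : ℝ) / (24 * (H : ℝ)) := by
    rw [sub_nonneg, div_le_one (by positivity)]
    linarith
  have hmain := (hTREE D n (phi c0 H) (1 - Real.log (H : ℝ) / (24 * (H : ℝ)))
    (phi_nn c0 H) hρ).1
  have hgoal : ∀ s : ℝ, 0 ≤ s → s ≤ 1 →
      ∑ c ∈ Finset.Icc 1 D, (1 + s) / (((c : ℝ) + s) * ((c : ℝ) + 1 + s)) * phi c0 H c ≤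
        1 - Real.log (H : ℝ) / (24 * (H : ℝ)) := by
    intro s hs hs1
    set f : ℕ → ℝ := fun c => (1 + s) / (((c : ℝ) + s) * ((c : ℝ) + 1 + s)) with hf
    have hf0 : ∀ c ∈ Icc 1 D, 0 ≤ f c := fun c _ => by
      simp only [hf]
      positivity
    have e1 : ∑ c ∈ Icc 1 D, f c * phi c0 H c =
        ∑ c ∈ Icc 1 D, f c - ∑ c ∈ Icc 1 D, f c * (1 - phi c0 H c) := by
      rw [← Finset.sum_sub_distrib]
      refine Finset.sum_congr rfl fun c _ => ?_
      ring
    have e2 : ∑ c ∈ Icc 1 D, f c ≤ 1 := by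
      simp only [hf]
      rw [tele s hs D]
      have : 0 ≤ (1 + s) / ((D : ℝ) + 1 + s) := by positivity
      linarith
    have hsub : Icc c0 H ⊆ Icc 1 D := by
      intro c hc
      rw [mem_Icc] at hc ⊢
      omega
    have e3 : ∑ c ∈ Icc c0 H, f c * (1 - phi c0 H c) ≤ ∑ c ∈ Icc 1 D, f c * (1 - phi c0 H c) := by
      apply Finset.sum_le_sum_of_subset_of_nonneg hsub
      intro c hc _
      exact mul_nonneg (hf0 c hc) (by linarith [phi_le c0 H c])
    have e4 : ∑ c ∈ Icc c0 H, 1 / (12 * (H : ℝ)) * (1 / (c : ℝ)) ≤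
        ∑ c ∈ Icc c0 H, f c * (1 - phi c0 H c) := by
      apply Finset.sum_le_sum
      intro c hc
      rw [mem_Icc] at hc
      have hc0 : (1 : ℝ) ≤ c := by
        have : 1 ≤ c := by omega
        exact_mod_cast this
      have hcp : (0 : ℝ) < c := by linarith
      have hcHr : (c : ℝ) ≤ H := by exact_mod_cast hc.2
      have g1 : 1 / (6 * (c : ℝ) ^ 2) ≤ f c := by
        simp only [hf]
        rw [div_le_div_iff₀ (by positivity) (by positivity)]
        nlinarith [mul_nonneg hs hcp.le, mul_nonneg hs hs, mul_self_nonneg ((c : ℝ) - 1),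
          mul_nonneg hs (mul_nonneg hcp.le hcp.le), mul_nonneg (sub_nonneg.2 hs1) hs]
      have g2 : (c : ℝ) / H / 2 ≤ 1 - phi c0 H c := by
        unfold phi
        rw [if_pos hc]
        have := one_sub_exp (x := (c : ℝ) / H) (by positivity) ((div_le_one hHp).2 hcHr)
        rw [neg_div]
        exact this
      calc 1 / (12 * (H : ℝ)) * (1 / (c : ℝ)) = 1 / (6 * (c : ℝ) ^ 2) * ((c : ℝ) / H / 2) := by
            field_simp
            norm_num
        _ ≤ f c * (1 - phi c0 H c) := mul_le_mul g1 g2 (by positivity)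
            (le_trans (by positivity) g1)
    rw [← Finset.mul_sum] at e4
    have e5 := harm c0 h0 H hcH
    have e6 : Real.log (H : ℝ) ≤ Real.log ((H : ℝ) + 1) := Real.log_le_log hHp (by linarith)
    have e7 : 2 * Real.log (c0 : ℝ) ≤ Real.log (H : ℝ) := by
      have e8 : Real.log ((c0 : ℝ) ^ 2) ≤ Real.log (H : ℝ) := by
        apply Real.log_le_log (by positivity)
        exact_mod_cast hH
      rw [Real.log_pow] at e8
      push_cast at e8
      exact e8
    have e9 : Real.log (H : ℝ) / 2 ≤ ∑ c ∈ Icc c0 H, 1 / (c : ℝ) := by linarith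
    have e10 : 1 / (12 * (H : ℝ)) * (Real.log (H : ℝ) / 2) ≤
        1 / (12 * (H : ℝ)) * ∑ c ∈ Icc c0 H, 1 / (c : ℝ) :=
      mul_le_mul_of_nonneg_left e9 (by positivity)
    have e11 : 1 / (12 * (H : ℝ)) * (Real.log (H : ℝ) / 2) =
        Real.log (H : ℝ) / (24 * (H : ℝ)) := by
      field_simp
      ring
    rw [e1]
    linarith
  have h2 := hmain hgoal
  refine le_trans (le_of_eq ?_) h2
  refine Finset.sum_congr rfl fun w _ => ?_
  rw [phi_prod]

end Pool.Agent.H357.AL

theorem Pool.Agent.H484.AL.t_FE (hTREE : Pool.Agent.H484.AL.S_TREE) : Pool.Agent.H484.AL.S_FE :=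
  Pool.Agent.H357.AL.t_FE' hTREE
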